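import Pool.Agent.helper78.ED.Defs

/-!
Module WG of the project ED (MP_4467b5_nt): the weight.
-/

set_option autoImplicit false

open Complex MeasureTheory

namespace Pool.Agent.helper78.ED

theorem wg_pos {M : ℝ} {n : ℕ} (hn : 1 ≤ n) : 0 < wg M n := by
  unfold wg
  rw [if_neg (by omega)]
  exact Real.exp_pos _

theorem wg_nonneg (M : ℝ) (n : ℕ) : 0 ≤ wg M n := by
  unfold wg
  split_ifs
  · exact le_rfl
  · exact (Real.exp_pos _).le

theorem WG_le_one (M : ℝ) (n : ℕ) : wg M n ≤ 1 := by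
  unfold wg
  split_ifs
  · exact zero_le_one
  · apply Real.exp_le_one_iff.mpr
    have := sq_nonneg (Real.log ((n : ℝ) / M))
    linarith

theorem WG_le (M : ℝ) (hM : 1 ≤ M) (n : ℕ) (hn : 1 ≤ n) :
    wg M n ≤ Real.exp 4 * (M ^ 2 / (n : ℝ) ^ 2) := by
  unfold wg
  rw [if_neg (by omega)]
  have hn' : (0 : ℝ) < n := by exact_mod_cast hn
  have hM' : 0 < M := by linarith
  have hx : 0 < (n : ℝ) / M := div_pos hn' hM'
  have h1 : Real.exp (-(Real.log ((n : ℝ) / M)) ^ 2 / 4)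
      ≤ Real.exp (4 - 2 * Real.log ((n : ℝ) / M)) := by
    apply Real.exp_le_exp.mpr
    nlinarith [sq_nonneg (Real.log ((n : ℝ) / M) / 2 - 2)]
  refine h1.trans (le_of_eq ?_)
  have h2 : 4 - 2 * Real.log ((n : ℝ) / M) = 4 + (-Real.log ((n : ℝ) / M)
      + -Real.log ((n : ℝ) / M)) := by ring
  rw [h2, Real.exp_add, Real.exp_add, Real.exp_neg, Real.exp_log hx]
  field_simp

theorem WG_tele (M : ℝ) (hM : 1 ≤ M) (n : ℕ) :
    wg M n ≤ 6 * Real.exp 4 * M ^ 2 * (1 / ((n : ℝ) + M) - 1 / (((n + 1 : ℕ) : ℝ) + M)) := by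
  have hM' : 0 < M := by linarith
  have hn0 : (0 : ℝ) ≤ n := Nat.cast_nonneg n
  have e : 1 / ((n : ℝ) + M) - 1 / (((n + 1 : ℕ) : ℝ) + M)
      = 1 / (((n : ℝ) + M) * ((n : ℝ) + M + 1)) := by
    push_cast
    have h1 : (n : ℝ) + M ≠ 0 := by positivity
    have h2 : (n : ℝ) + 1 + M ≠ 0 := by positivity
    have h3 : (n : ℝ) + M + 1 ≠ 0 := by positivity
    field_simp
    ring
  rw [e]
  have he : (1 : ℝ) ≤ Real.exp 4 := Real.one_le_exp (by norm_num)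
  by_cases h : (n : ℝ) ≤ M
  · refine (WG_le_one M n).trans ?_
    have hden : 0 < ((n : ℝ) + M) * ((n : ℝ) + M + 1) := by positivity
    rw [mul_one_div, le_div_iff₀ hden, one_mul]
    have h1 : ((n : ℝ) + M) * ((n : ℝ) + M + 1) ≤ 6 * M ^ 2 := by nlinarith
    have h2 : (6 : ℝ) * M ^ 2 * 1 ≤ 6 * M ^ 2 * Real.exp 4 :=
      mul_le_mul_of_nonneg_left he (by positivity)
    nlinarith
  · push Not at h
    have hn : 1 ≤ n := by
      have : (1 : ℝ) < n := by linarith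
      have : 1 < n := by exact_mod_cast this
      omega
    have hn' : (0 : ℝ) < n := by exact_mod_cast hn
    refine (WG_le M hM n hn).trans ?_
    have hden : 0 < ((n : ℝ) + M) * ((n : ℝ) + M + 1) := by positivity
    have h1 : ((n : ℝ) + M) * ((n : ℝ) + M + 1) ≤ 6 * (n : ℝ) ^ 2 := by nlinarith
    have h2 : M ^ 2 / (n : ℝ) ^ 2 ≤ 6 * M ^ 2 * (1 / (((n : ℝ) + M) * ((n : ℝ) + M + 1))) := by
      rw [mul_one_div, div_le_div_iff₀ (by positivity) hden]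
      nlinarith [mul_le_mul_of_nonneg_left h1 (sq_nonneg M)]
    calc Real.exp 4 * (M ^ 2 / (n : ℝ) ^ 2)
        ≤ Real.exp 4 * (6 * M ^ 2 * (1 / (((n : ℝ) + M) * ((n : ℝ) + M + 1)))) :=
          mul_le_mul_of_nonneg_left h2 (Real.exp_pos 4).le
      _ = _ := by ring

theorem WG_range (M : ℝ) (hM : 1 ≤ M) (N : ℕ) :
    ∑ n ∈ Finset.range N, wg M n ≤ 6 * Real.exp 4 * M := by
  have hM' : 0 < M := by linarith
  refine (Finset.sum_le_sum (fun n _ => WG_tele M hM n)).trans ?_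
  rw [← Finset.mul_sum, Finset.sum_range_sub' (fun n : ℕ => 1 / ((n : ℝ) + M)) N]
  have h1 : 1 / (((0 : ℕ) : ℝ) + M) - 1 / ((N : ℝ) + M) ≤ 1 / M := by
    have : 0 ≤ 1 / ((N : ℝ) + M) := by positivity
    simp only [Nat.cast_zero, zero_add]
    linarith
  calc 6 * Real.exp 4 * M ^ 2 * (1 / (((0 : ℕ) : ℝ) + M) - 1 / ((N : ℝ) + M))
      ≤ 6 * Real.exp 4 * M ^ 2 * (1 / M) :=
        mul_le_mul_of_nonneg_left h1 (by positivity)
    _ = 6 * Real.exp 4 * M := by field_simp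

theorem wg_sum : ∃ C : ℝ, 0 < C ∧ ∀ M : ℝ, 1 ≤ M → Summable (wg M) ∧ ∑' n, wg M n ≤ C * M := by
  refine ⟨6 * Real.exp 4, by positivity, fun M hM => ⟨?_, ?_⟩⟩
  · exact summable_of_sum_range_le (fun n => wg_nonneg M n) (fun N => WG_range M hM N)
  · exact Real.tsum_le_of_sum_range_le (fun n => wg_nonneg M n) (fun N => WG_range M hM N)

theorem wg_lower {M : ℝ} {n k : ℕ} (hM : 1 ≤ M) (h1 : M ≤ n) (h2 : (n : ℝ) ≤ 2 ^ k * M) :
    Real.exp (-((k : ℝ) ^ 2)) ≤ wg M n := by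
  have hM' : 0 < M := by linarith
  have hn : (0 : ℝ) < n := by linarith
  have hn1 : n ≠ 0 := by
    rintro rfl
    simp at hn
  unfold wg
  rw [if_neg hn1]
  apply Real.exp_le_exp.mpr
  have hx1 : 1 ≤ (n : ℝ) / M := by rw [le_div_iff₀ hM']; linarith
  have hx2 : (n : ℝ) / M ≤ 2 ^ k := by rw [div_le_iff₀ hM']; exact h2
  have hl0 : 0 ≤ Real.log ((n : ℝ) / M) := Real.log_nonneg hx1
  have hl1 : Real.log ((n : ℝ) / M) ≤ k := by
    calc Real.log ((n : ℝ) / M) ≤ Real.log (2 ^ k) := Real.log_le_log (by linarith) hx2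
      _ = k * Real.log 2 := by rw [Real.log_pow]
      _ ≤ k * 1 := by
          refine mul_le_mul_of_nonneg_left ?_ (Nat.cast_nonneg k)
          have := Real.log_two_lt_d9
          linarith
      _ = k := mul_one _
  have h3 : Real.log ((n : ℝ) / M) ^ 2 ≤ (k : ℝ) ^ 2 := by
    exact pow_le_pow_left₀ hl0 hl1 2
  nlinarith [sq_nonneg (k : ℝ)]

theorem SS_triv : ∃ C : ℝ, 0 < C ∧ ∀ M z τ : ℝ, 1 ≤ M → 0 ≤ z → ‖SS M z τ‖ ≤ C * M := by
  obtain ⟨C, hC, h⟩ := wg_sum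
  refine ⟨C, hC, fun M z τ hM hz => ?_⟩
  obtain ⟨hs, hle⟩ := h M hM
  refine le_trans ?_ hle
  unfold SS
  refine tsum_of_norm_bounded hs.hasSum (fun n => ?_)
  rcases Nat.eq_zero_or_pos n with rfl | hn
  · simp [wg]
  · rw [norm_mul, Complex.norm_real, Real.norm_of_nonneg (wg_nonneg M n)]
    have h1 : ‖(n : ℂ) ^ (-((z : ℂ) + τ * I))‖ ≤ 1 := by
      rw [Complex.norm_natCast_cpow_of_pos hn]
      have h2 : (-((z : ℂ) + τ * I)).re = -z := by simp
      rw [h2]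
      refine Real.rpow_le_one_of_one_le_of_nonpos ?_ (by linarith)
      exact_mod_cast hn
    calc wg M n * ‖(n : ℂ) ^ (-((z : ℂ) + τ * I))‖ ≤ wg M n * 1 :=
          mul_le_mul_of_nonneg_left h1 (wg_nonneg M n)
      _ = wg M n := mul_one _

end Pool.Agent.helper78.ED
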