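import Pool.Agent.helper52.ED.SpecP

set_option autoImplicit false

open Complex Metric Set Filter Topology MeasureTheory
open Pool.Agent.helper98.ILF Pool.Agent.helper16.Multibrot HY
open DH (co Tow yv jj FA REL)

noncomputable section

namespace ED

theorem PSV (hVT : VT_stmt) (hTCH : TCH_stmt) (hVKB : HY.VKB_stmt) : PSV_stmt := by
  intro n r hn hr
  obtain ⟨C, hC, hvt⟩ := hVT n hn r hr
  refine ⟨C, hC, fun c hc hd Φ b hT k q w s hw hw1 hs hs1 => ?_⟩
  have h0 : (0 : ℂ) ∈ filled n c := (hVKB n c hn hc).2.1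
  obtain ⟨h1, h2, -⟩ := hTCH n c Φ b hT k q 0 h0
  refine hvt c hc hd (VV n c k) (Φ k) (hT.rm k) _ (fun u => chg Φ n c k q 0 u) w s hw hw1 hs hs1 ?_ ?_
  · intro u hu
    rw [Finset.mem_filter, Finset.mem_range] at hu
    obtain ⟨g1, g2, -⟩ := h1 u (by omega)
    refine ⟨g1, hu.2.1, ?_⟩
    show s ≤ 1 - ‖chg Φ n c k q 0 u 0‖
    rw [g2]
    exact hu.2.2
  · intro u hu u' hu' huu
    rw [Finset.mem_filter, Finset.mem_range] at hu hu'
    exact h2 u u' huu (by omega)

end ED
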